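import Pool.Agent.Helper74.FP.Goals

/-!
# FP-F4: minors of free products
-/

set_option autoImplicit false

namespace Pool.Agent.Helper79.FP

open Pool.Agent.Helper52.Wq2 Pool.Agent.Helper61.NW Pool.Agent.Helper74.FP Monoid
open Monoid.CoprodI.Word

universe u

section words

variable {ι : Type} {A B : ι → Type u} [∀ i, Group (A i)] [∀ i, Group (B i)]

/-- the letterwise image of a word -/
def mapW (r : ∀ i, A i → B i) (h : ∀ i a, a ≠ 1 → r i a ≠ 1) (w : CoprodI.Word A) :
    CoprodI.Word B where
  toList := w.toList.map fun l => ⟨l.1, r l.1 l.2⟩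
  ne_one := by
    intro l hl
    obtain ⟨l', hl', rfl⟩ := List.mem_map.1 hl
    exact h _ _ (w.ne_one l' hl')
  chain_ne := by
    rw [List.isChain_map]
    exact w.chain_ne

variable {r : ∀ i, A i → B i} {h : ∀ i a, a ≠ 1 → r i a ≠ 1}

lemma fstIdx_mapW (w : CoprodI.Word A) : fstIdx (mapW r h w) = fstIdx w := by
  unfold fstIdx mapW
  simp only [List.head?_map, Option.map_map]
  rfl

lemma mapW_inj (hr : ∀ i, Function.Injective (r i)) : Function.Injective (mapW r h) := by
  intro w w' hw
  have h1 : (mapW r h w).toList = (mapW r h w').toList := by rw [hw]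
  apply CoprodI.Word.ext
  have h2 : Function.Injective (fun l : (Σ i, A i) => (⟨l.1, r l.1 l.2⟩ : Σ i, B i)) := by
    rintro ⟨i, a⟩ ⟨j, b⟩ hab
    simp only [Sigma.mk.injEq] at hab
    obtain ⟨rfl, h3⟩ := hab
    have h4 := hr i (eq_of_heq h3)
    rw [h4]
  exact List.map_injective_iff.2 h2 h1

variable [DecidableEq ι] [∀ i, DecidableEq (A i)] [∀ i, DecidableEq (B i)]

lemma mapW_rcons (hr1 : ∀ i, r i 1 = 1) {i : ι} (p : Pair A i) :
    mapW r h (rcons p) = rcons ⟨r i p.head, mapW r h p.tail, by
      rw [fstIdx_mapW]; exact p.fstIdx_ne⟩ := by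
  by_cases hp : p.head = 1
  · have h2 : r i p.head = 1 := by rw [hp, hr1]
    rw [rcons, rcons, dif_pos hp, dif_pos h2]
  · have h2 : r i p.head ≠ 1 := h i _ hp
    rw [rcons, rcons, dif_neg hp, dif_neg h2]
    rfl

lemma equivPair_mapW (hr1 : ∀ i, r i 1 = 1) (i : ι) (w : CoprodI.Word A) :
    equivPair i (mapW r h w) = ⟨r i (equivPair i w).head, mapW r h (equivPair i w).tail, by
      rw [fstIdx_mapW]; exact (equivPair i w).fstIdx_ne⟩ := by
  have h1 : w = rcons (equivPair i w) := by
    rw [← equivPair_symm, Equiv.symm_apply_apply]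
  have h2 := mapW_rcons (h := h) hr1 (equivPair i w)
  rw [← h1] at h2
  rw [h2, ← equivPair_symm, Equiv.apply_symm_apply]

/-- `x` is in the part of `w` at `i` -/
def Q (r : ∀ i, A i → B i) (h : ∀ i a, a ≠ 1 → r i a ≠ 1) (V : ∀ i, A i → Set (B i)) (i : ι)
    (w : CoprodI.Word A) (x : CoprodI.Word B) : Prop :=
  (equivPair i x).head ∈ V i (equivPair i w).head ∧
    (equivPair i x).tail = mapW r h (equivPair i w).tail

variable {V : ∀ i, A i → Set (B i)}

lemma Q_self (hr1 : ∀ i, r i 1 = 1) (hrV : ∀ i a, r i a ∈ V i a) (i : ι) (w : CoprodI.Word A) :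
    Q r h V i w (mapW r h w) := by
  unfold Q
  rw [equivPair_mapW hr1]
  exact ⟨hrV _ _, rfl⟩

lemma Q_inj (hr : ∀ i, Function.Injective (r i))
    (hd : ∀ i a a' x, x ∈ V i a → x ∈ V i a' → a = a') {i : ι} {w w' : CoprodI.Word A}
    {x : CoprodI.Word B} (h1 : Q r h V i w x) (h2 : Q r h V i w' x) : w = w' := by
  have h3 := hd i _ _ _ h1.1 h2.1
  have h4 : (equivPair i w).tail = (equivPair i w').tail :=
    mapW_inj hr (h1.2.symm.trans h2.2)
  exact (equivPair i).injective (Pair.ext h3 h4)

lemma Q_one (hr1 : ∀ i, r i 1 = 1) (h1V : ∀ i, (1 : B i) ∈ V i 1)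
    (hd : ∀ i a a' x, x ∈ V i a → x ∈ V i a' → a = a') {i : ι} {w : CoprodI.Word A}
    {x : CoprodI.Word B} (h1 : Q r h V i w x) (h2 : (equivPair i x).head = 1) :
    x = mapW r h w := by
  have h3 : (equivPair i w).head = 1 := by
    have := h1.1
    rw [h2] at this
    exact hd i _ _ _ this (h1V i)
  apply (equivPair i).injective
  rw [equivPair_mapW hr1]
  refine Pair.ext ?_ h1.2
  rw [h2]
  simp only
  rw [h3, hr1]

lemma head_one {i j : ι} (hij : i ≠ j) (x : CoprodI.Word B) :
    (equivPair i x).head = 1 ∨ (equivPair j x).head = 1 := by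
  by_cases h1 : x.fstIdx = some i
  · right
    rw [equivPair_eq_of_fstIdx_ne (by rw [h1]; intro h2; exact hij (Option.some.inj h2))]
  · left
    rw [equivPair_eq_of_fstIdx_ne h1]

lemma equiv_mul_prod {i : ι} (b : B i) (t : CoprodI.Word B) (ht : t.fstIdx ≠ some i) :
    equivPair i (CoprodI.Word.equiv (CoprodI.of b * prod t)) = ⟨b, t, ht⟩ := by
  have h1 : CoprodI.of b * prod t = CoprodI.Word.equiv.symm (rcons ⟨b, t, ht⟩) := by
    change _ = prod (rcons ⟨b, t, ht⟩)
    rw [prod_rcons]
  rw [h1, Equiv.apply_symm_apply, ← equivPair_symm, Equiv.apply_symm_apply]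

lemma eq_mul_prod (i : ι) (x : CoprodI B) :
    x = CoprodI.of (equivPair i (CoprodI.Word.equiv x)).head *
      prod (equivPair i (CoprodI.Word.equiv x)).tail := by
  rw [← prod_rcons, ← equivPair_symm, Equiv.symm_apply_apply]
  exact (CoprodI.Word.equiv.symm_apply_apply x).symm

end words

lemma adj_lift {ι : Type} {B : ι → Type u} [∀ i, Group (B i)] (T : ∀ i, Set (B i)) {i : ι}
    {b b' : B i} (hb : (cayL (T i)).Adj b b') (y : CoprodI B) :
    (cayL (US T)).Adj (CoprodI.of b * y) (CoprodI.of b' * y) := by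
  classical
  unfold cayL at hb ⊢
  rw [SimpleGraph.fromRel_adj] at hb ⊢
  refine ⟨fun h => hb.1 (CoprodI.of_injective i (mul_right_cancel h)), ?_⟩
  rcases hb.2 with h | h
  · exact Or.inl ⟨i, _, h, by rw [map_mul, map_inv]; group⟩
  · exact Or.inr ⟨i, _, h, by rw [map_mul, map_inv]; group⟩

/-- **F4.** -/
theorem f4 : F4Stmt.{u} := by
  intro ι A B _ _ S T V hS hT hM h1V
  classical
  have hne : ∀ i a, (V i a).Nonempty := fun i a => ((hM i).1 a).1
  have hd : ∀ i a a' x, x ∈ V i a → x ∈ V i a' → a = a' := fun i a a' x => (hM i).2.1 a a' x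
  let r : ∀ i, A i → B i := fun i a => if a = 1 then 1 else (hne i a).choose
  have hr1 : ∀ i, r i 1 = 1 := fun i => if_pos rfl
  have hrV : ∀ i a, r i a ∈ V i a := by
    intro i a
    by_cases ha : a = 1
    · have : r i a = 1 := if_pos ha
      rw [this, ha]; exact h1V i
    · have : r i a = (hne i a).choose := if_neg ha
      rw [this]; exact (hne i a).choose_spec
  have hri : ∀ i, Function.Injective (r i) := by
    intro i a a' haa
    exact hd i a a' (r i a) (hrV i a) (haa ▸ hrV i a')
  have h : ∀ i a, a ≠ 1 → r i a ≠ 1 := by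
    intro i a ha h2
    exact ha (hri i (h2.trans (hr1 i).symm))
  let Φ : CoprodI A → Set (CoprodI B) := fun z =>
    {x | CoprodI.Word.equiv x = mapW r h (CoprodI.Word.equiv z) ∨
      ∃ i, Q r h V i (CoprodI.Word.equiv z) (CoprodI.Word.equiv x)}
  -- parts
  have hpart : ∀ (z : CoprodI A) (i : ι) (b : B i),
      b ∈ V i (equivPair i (CoprodI.Word.equiv z)).head →
      CoprodI.of b * prod (mapW r h (equivPair i (CoprodI.Word.equiv z)).tail) ∈ Φ z := by
    intro z i b hb
    refine Or.inr ⟨i, ?_⟩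
    unfold Q
    rw [equiv_mul_prod b _ (by rw [fstIdx_mapW]; exact (equivPair i _).fstIdx_ne)]
    exact ⟨hb, rfl⟩
  refine ⟨Φ, ?_, ?_, ?_⟩
  · -- connected
    intro z
    set c : CoprodI B := CoprodI.Word.equiv.symm (mapW r h (CoprodI.Word.equiv z)) with hc
    have hcΦ : c ∈ Φ z := Or.inl (by rw [hc, Equiv.apply_symm_apply])
    have hci : ∀ i, c = CoprodI.of (r i (equivPair i (CoprodI.Word.equiv z)).head) *
        prod (mapW r h (equivPair i (CoprodI.Word.equiv z)).tail) := by
      intro i
      have h3 := eq_mul_prod i c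
      rw [hc, Equiv.apply_symm_apply, equivPair_mapW hr1, ← hc] at h3
      exact h3
    refine ⟨⟨c, hcΦ⟩, ?_⟩
    intro C hC hCne hCcl
    have hCi : ∀ (i : ι) (b : B i), b ∈ V i (equivPair i (CoprodI.Word.equiv z)).head →
        CoprodI.of b * prod (mapW r h (equivPair i (CoprodI.Word.equiv z)).tail) ∈ C →
        ∀ b' ∈ V i (equivPair i (CoprodI.Word.equiv z)).head,
        CoprodI.of b' * prod (mapW r h (equivPair i (CoprodI.Word.equiv z)).tail) ∈ C := by
      intro i b hb hbC b' hb'
      have h3 := ((hM i).1 (equivPair i (CoprodI.Word.equiv z)).head).2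
        {b | b ∈ V i (equivPair i (CoprodI.Word.equiv z)).head ∧
          CoprodI.of b * prod (mapW r h (equivPair i (CoprodI.Word.equiv z)).tail) ∈ C}
        (fun b hb => hb.1) ⟨b, hb, hbC⟩ (by
          intro a ha a' ha' haa
          exact ⟨ha', hCcl _ ha.2 _ (hpart z i a' ha') (adj_lift T haa _)⟩)
      exact (h3 hb').2
    have hcC : c ∈ C := by
      obtain ⟨x, hx⟩ := hCne
      rcases hC hx with h3 | ⟨i, h3⟩
      · have : x = c := by rw [hc, ← h3, Equiv.symm_apply_apply]
        rw [← this]; exact hx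
      · have h4 := eq_mul_prod i x
        rw [h3.2] at h4
        rw [hci i]
        refine hCi i _ h3.1 ?_ _ (hrV i _)
        rw [← h4]; exact hx
    intro x hx
    rcases hx with h3 | ⟨i, h3⟩
    · have : x = c := by rw [hc, ← h3, Equiv.symm_apply_apply]
      rw [this]; exact hcC
    · have h4 := eq_mul_prod i x
      rw [h3.2] at h4
      rw [h4]
      refine hCi i _ (hrV i _) ?_ _ h3.1
      rw [← hci i]; exact hcC
  · -- disjoint
    have key : ∀ (w w' : CoprodI.Word A) (x : CoprodI.Word B) (i : ι),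
        (x = mapW r h w ∨ ∃ i, Q r h V i w x) → Q r h V i w' x → w = w' := by
      intro w w' x i h3 h4
      rcases h3 with h3 | ⟨j, h3⟩
      · rw [h3] at h4
        exact Q_inj hri hd (Q_self hr1 hrV i w) h4
      · by_cases hij : j = i
        · subst hij
          exact Q_inj hri hd h3 h4
        · rcases head_one hij x with h5 | h5
          · have h6 := Q_one hr1 h1V hd h3 h5
            rw [h6] at h4
            exact Q_inj hri hd (Q_self hr1 hrV i w) h4
          · have h6 := Q_one hr1 h1V hd h4 h5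
            rw [h6] at h3
            exact Q_inj hri hd h3 (Q_self hr1 hrV j w')
    intro z z' x hx hx'
    apply CoprodI.Word.equiv.injective
    rcases hx' with h3 | ⟨i, h3⟩
    · rcases hx with h4 | ⟨j, h4⟩
      · exact mapW_inj hri (h4.symm.trans h3)
      · exact (key _ _ _ j (Or.inl h3) h4).symm
    · exact key _ _ _ i hx h3
  · -- edges
    have key : ∀ (z : CoprodI A) (i : ι) (s : A i), s ∈ S i →
        ∃ a ∈ Φ z, ∃ b ∈ Φ (CoprodI.of s * z), (cayL (US T)).Adj a b := by
      intro z i s hs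
      have h3 : CoprodI.Word.equiv (CoprodI.of s * z) = CoprodI.of s • CoprodI.Word.equiv z := by
        change (CoprodI.of s * z) • (empty : CoprodI.Word A) = CoprodI.of s • (z • empty)
        rw [mul_smul]
      have h4 := equivPair_smul_same s (CoprodI.Word.equiv z)
      rw [← h3] at h4
      have h5 : (cayL (S i)).Adj (equivPair i (CoprodI.Word.equiv z)).head
          (s * (equivPair i (CoprodI.Word.equiv z)).head) := by
        unfold cayL
        rw [SimpleGraph.fromRel_adj]
        refine ⟨?_, Or.inl ?_⟩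
        · intro h6
          apply (hS i).2.2
          have : s = 1 := by
            have h7 : 1 * (equivPair i (CoprodI.Word.equiv z)).head =
              s * (equivPair i (CoprodI.Word.equiv z)).head := by rw [one_mul]; exact h6
            exact (mul_right_cancel h7).symm
          rw [← this]; exact hs
        · rw [mul_assoc, mul_inv_cancel, mul_one]; exact hs
      obtain ⟨b, hb, b', hb', hbb⟩ := (hM i).2.2 _ _ h5
      refine ⟨_, hpart z i b hb, CoprodI.of b' *
        prod (mapW r h (equivPair i (CoprodI.Word.equiv z)).tail), ?_, adj_lift T hbb _⟩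
      have h6 := hpart (CoprodI.of s * z) i b'
      rw [h4] at h6
      exact h6 hb'
    intro z z' hzz
    unfold cayL at hzz
    rw [SimpleGraph.fromRel_adj] at hzz
    rcases hzz.2 with ⟨i, s, hs, h3⟩ | ⟨i, s, hs, h3⟩
    · have h4 : z' = CoprodI.of s * z := by rw [← h3]; group
      rw [h4]
      exact key z i s hs
    · have h4 : z = CoprodI.of s * z' := by rw [← h3]; group
      obtain ⟨a, ha, b, hb, hab⟩ := key z' i s hs
      rw [← h4] at hb
      exact ⟨b, hb, a, ha, hab.symm⟩

end Pool.Agent.Helper79.FP
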